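import Pool.Agent.H41.GM.Stm

/-!
# Project GM: moments (MOM)
-/

set_option autoImplicit false

namespace Pool.Agent.H76.GM

open MeasureTheory Filter Topology ProbabilityTheory Pool.Agent.H41.GM
open scoped ENNReal

theorem log_pos' (j : ℕ) : 0 < Real.log ((j : ℝ) + 2) := Real.log_pos (by
  have : (0 : ℝ) ≤ j := Nat.cast_nonneg j
  linarith)

theorem aa_le_iff {j : ℕ} {Y : ℝ} (hY : 0 ≤ Y) :
    aa j ≤ Y ↔ (j : ℝ) ≤ Y ^ (5 / 4 : ℝ) * Real.log ((j : ℝ) + 2) := by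
  have hL := log_pos' j
  have h0 : 0 ≤ (j : ℝ) / Real.log ((j : ℝ) + 2) := by positivity
  rw [aa, ← div_le_iff₀ hL]
  have h1 : Y = (Y ^ (5 / 4 : ℝ)) ^ (4 / 5 : ℝ) := by
    rw [← Real.rpow_mul hY]
    norm_num
  conv_lhs => rw [h1]
  exact Real.rpow_le_rpow_iff h0 (by positivity) (by norm_num)

/-- the moment variable -/
noncomputable def Zm (Y : ℝ) : ℝ := Y ^ (5 / 4 : ℝ) * Real.log (2 + Y)

theorem Zm_nonneg {Y : ℝ} (hY : 0 ≤ Y) : 0 ≤ Zm Y :=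
  mul_nonneg (by positivity) (Real.log_nonneg (by linarith))

theorem upper {j : ℕ} {Y : ℝ} (hY : 0 ≤ Y) (h : aa j ≤ Y) : (j : ℝ) ≤ 7 * Zm Y := by
  rcases Nat.eq_zero_or_pos j with rfl | hj
  · have := Zm_nonneg hY
    simpa using this
  have hj1 : (1 : ℝ) ≤ j := by exact_mod_cast hj
  rw [aa_le_iff hY] at h
  have hy0 : 0 ≤ Y ^ (5 / 4 : ℝ) := by positivity
  -- `log (j + 2) ≤ 2 √(j + 2)`
  have hs : 0 < Real.sqrt ((j : ℝ) + 2) := Real.sqrt_pos.2 (by linarith)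
  have h1 : Real.log ((j : ℝ) + 2) ≤ 2 * Real.sqrt ((j : ℝ) + 2) := by
    have h2 := Real.log_le_sub_one_of_pos hs
    rw [Real.log_sqrt (by linarith)] at h2
    linarith
  have hsq : Real.sqrt ((j : ℝ) + 2) ^ 2 = j + 2 := Real.sq_sqrt (by linarith)
  have h3 : (j : ℝ) ≤ Y ^ (5 / 4 : ℝ) * (2 * Real.sqrt ((j : ℝ) + 2)) :=
    h.trans (mul_le_mul_of_nonneg_left h1 hy0)
  have h4 : (j : ℝ) ≤ 12 * (Y ^ (5 / 4 : ℝ)) ^ 2 := by
    have h5 : (j : ℝ) ^ 2 ≤ (Y ^ (5 / 4 : ℝ) * (2 * Real.sqrt ((j : ℝ) + 2))) ^ 2 :=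
      pow_le_pow_left₀ (by linarith) h3 2
    have h6 : (Y ^ (5 / 4 : ℝ) * (2 * Real.sqrt ((j : ℝ) + 2))) ^ 2 =
        4 * (Y ^ (5 / 4 : ℝ)) ^ 2 * (j + 2) := by
      rw [mul_pow, mul_pow, hsq]; ring
    rw [h6] at h5
    have h7 : 4 * (Y ^ (5 / 4 : ℝ)) ^ 2 * ((j : ℝ) + 2) ≤ 4 * (Y ^ (5 / 4 : ℝ)) ^ 2 * (3 * j) :=
      mul_le_mul_of_nonneg_left (by linarith) (by positivity)
    have h8 : (j : ℝ) * j ≤ (12 * (Y ^ (5 / 4 : ℝ)) ^ 2) * j := by nlinarith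
    exact le_of_mul_le_mul_right h8 (by linarith)
  have h9 : (Y ^ (5 / 4 : ℝ)) ^ 2 ≤ (2 + Y) ^ 3 := by
    rw [← Real.rpow_natCast (Y ^ (5 / 4 : ℝ)) 2, ← Real.rpow_mul hY,
      ← Real.rpow_natCast (2 + Y) 3]
    calc Y ^ (5 / 4 * ((2 : ℕ) : ℝ)) ≤ (2 + Y) ^ (5 / 4 * ((2 : ℕ) : ℝ)) :=
          Real.rpow_le_rpow hY (by linarith) (by norm_num)
      _ ≤ (2 + Y) ^ ((3 : ℕ) : ℝ) :=
          Real.rpow_le_rpow_of_exponent_le (by linarith) (by norm_num)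
  have h10 : (j : ℝ) + 2 ≤ (2 + Y) ^ 7 := by
    have h11 : (16 : ℝ) ≤ (2 + Y) ^ 4 := by
      calc (16 : ℝ) = 2 ^ 4 := by norm_num
        _ ≤ (2 + Y) ^ 4 := pow_le_pow_left₀ (by norm_num) (by linarith) 4
    have h12 : (8 : ℝ) ≤ (2 + Y) ^ 3 := by
      calc (8 : ℝ) = 2 ^ 3 := by norm_num
        _ ≤ (2 + Y) ^ 3 := pow_le_pow_left₀ (by norm_num) (by linarith) 3
    calc (j : ℝ) + 2 ≤ 16 * (2 + Y) ^ 3 := by linarith
      _ ≤ (2 + Y) ^ 4 * (2 + Y) ^ 3 := mul_le_mul_of_nonneg_right h11 (by positivity)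
      _ = (2 + Y) ^ 7 := by ring
  have h13 : Real.log ((j : ℝ) + 2) ≤ 7 * Real.log (2 + Y) := by
    calc Real.log ((j : ℝ) + 2) ≤ Real.log ((2 + Y) ^ 7) := Real.log_le_log (by linarith) h10
      _ = 7 * Real.log (2 + Y) := by rw [Real.log_pow]; norm_num
  calc (j : ℝ) ≤ Y ^ (5 / 4 : ℝ) * Real.log ((j : ℝ) + 2) := h
    _ ≤ Y ^ (5 / 4 : ℝ) * (7 * Real.log (2 + Y)) := mul_le_mul_of_nonneg_left h13 hy0
    _ = 7 * Zm Y := by rw [Zm]; ring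

theorem lower {j : ℕ} {Y : ℝ} (hY : 0 ≤ Y)
    (h : (j : ℝ) ≤ Y ^ (5 / 4 : ℝ) * Real.log (2 + Y ^ (5 / 4 : ℝ))) : aa j ≤ Y := by
  rw [aa_le_iff hY]
  have hy0 : 0 ≤ Y ^ (5 / 4 : ℝ) := by positivity
  rcases Nat.eq_zero_or_pos j with rfl | hj
  · have := log_pos' 0
    have h1 := mul_nonneg hy0 this.le
    simpa using h1
  have hj1 : (1 : ℝ) ≤ j := by exact_mod_cast hj
  rcases le_or_gt (j : ℝ) (Y ^ (5 / 4 : ℝ)) with h1 | h1
  · have h2 : 1 ≤ Real.log ((j : ℝ) + 2) := by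
      rw [Real.le_log_iff_exp_le (by linarith)]
      have := Real.exp_one_lt_d9
      linarith
    nlinarith
  · exact h.trans (mul_le_mul_of_nonneg_left
      (Real.log_le_log (by positivity) (by linarith)) hy0)

theorem Zm_le {Y : ℝ} (hY : 0 ≤ Y) :
    Zm Y ≤ 2 * (Y ^ (5 / 4 : ℝ) * Real.log (2 + Y ^ (5 / 4 : ℝ))) := by
  have hy0 : 0 ≤ Y ^ (5 / 4 : ℝ) := by positivity
  have h1 : Y ≤ 1 + Y ^ (5 / 4 : ℝ) := by
    rcases le_or_gt Y 1 with h | h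
    · linarith
    · have : Y ^ (1 : ℝ) ≤ Y ^ (5 / 4 : ℝ) := Real.rpow_le_rpow_of_exponent_le h.le (by norm_num)
      rw [Real.rpow_one] at this
      linarith
  have h2 : Real.log (2 + Y) ≤ 2 * Real.log (2 + Y ^ (5 / 4 : ℝ)) := by
    calc Real.log (2 + Y) ≤ Real.log ((2 + Y ^ (5 / 4 : ℝ)) ^ 2) :=
          Real.log_le_log (by linarith) (by nlinarith)
      _ = 2 * Real.log (2 + Y ^ (5 / 4 : ℝ)) := by rw [Real.log_pow]; norm_num
  calc Zm Y ≤ Y ^ (5 / 4 : ℝ) * (2 * Real.log (2 + Y ^ (5 / 4 : ℝ))) :=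
        mul_le_mul_of_nonneg_left h2 hy0
    _ = _ := by ring

/-- the number of the `j` with `aa j ≤ Y` -/
noncomputable def F (Y : ℝ) : ℝ≥0∞ := ∑' j : ℕ, if aa j ≤ Y then 1 else 0

theorem F_le {Y : ℝ} (hY : 0 ≤ Y) : F Y ≤ ENNReal.ofReal (7 * Zm Y + 1) := by
  have hZ := Zm_nonneg hY
  rw [F, tsum_eq_sum (s := Finset.range (⌊7 * Zm Y⌋₊ + 1))]
  · calc (∑ j ∈ Finset.range (⌊7 * Zm Y⌋₊ + 1), if aa j ≤ Y then (1 : ℝ≥0∞) else 0)
        ≤ ∑ j ∈ Finset.range (⌊7 * Zm Y⌋₊ + 1), 1 :=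
          Finset.sum_le_sum fun j _ => by split_ifs <;> simp
      _ = ((⌊7 * Zm Y⌋₊ + 1 : ℕ) : ℝ≥0∞) := by simp
      _ = ENNReal.ofReal ((⌊7 * Zm Y⌋₊ + 1 : ℕ) : ℝ) := (ENNReal.ofReal_natCast _).symm
      _ ≤ _ := by
        refine ENNReal.ofReal_le_ofReal ?_
        push_cast
        have := Nat.floor_le (show 0 ≤ 7 * Zm Y by positivity)
        linarith
  · intro j hj
    rw [if_neg]
    intro h
    refine hj (Finset.mem_range.2 ?_)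
    exact Nat.lt_succ_of_le (Nat.le_floor (upper hY h))

theorem le_F {Y : ℝ} (hY : 0 ≤ Y) : ENNReal.ofReal (Zm Y) ≤ 2 * F Y := by
  have hy0 : 0 ≤ Y ^ (5 / 4 : ℝ) := by positivity
  have hl : 0 ≤ Real.log (2 + Y ^ (5 / 4 : ℝ)) := Real.log_nonneg (by linarith)
  set w : ℝ := Y ^ (5 / 4 : ℝ) * Real.log (2 + Y ^ (5 / 4 : ℝ)) with hw
  have hw0 : 0 ≤ w := mul_nonneg hy0 hl
  have h1 : ENNReal.ofReal w ≤ F Y := by
    calc ENNReal.ofReal w ≤ ENNReal.ofReal ((⌊w⌋₊ + 1 : ℕ) : ℝ) := by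
          refine ENNReal.ofReal_le_ofReal ?_
          push_cast
          exact (Nat.lt_floor_add_one w).le
      _ = ((⌊w⌋₊ + 1 : ℕ) : ℝ≥0∞) := ENNReal.ofReal_natCast _
      _ = ∑ j ∈ Finset.range (⌊w⌋₊ + 1), (1 : ℝ≥0∞) := by simp
      _ = ∑ j ∈ Finset.range (⌊w⌋₊ + 1), if aa j ≤ Y then (1 : ℝ≥0∞) else 0 := by
          refine Finset.sum_congr rfl fun j hj => ?_
          rw [if_pos]
          refine lower hY ?_
          have h2 : j ≤ ⌊w⌋₊ := Nat.lt_succ_iff.1 (Finset.mem_range.1 hj)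
          exact (Nat.cast_le.2 h2).trans (Nat.floor_le hw0)
      _ ≤ F Y := ENNReal.sum_le_tsum _
  calc ENNReal.ofReal (Zm Y) ≤ ENNReal.ofReal (2 * w) := ENNReal.ofReal_le_ofReal (Zm_le hY)
    _ = 2 * ENNReal.ofReal w := by
      rw [ENNReal.ofReal_mul (by norm_num), ENNReal.ofReal_ofNat]
    _ ≤ 2 * F Y := by gcongr

theorem mom : S_MOM := by
  intro Ω _ P _ Y hYm hY0
  have hmeas : ∀ j : ℕ, MeasurableSet {ω | aa j ≤ Y ω} := fun j =>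
    measurableSet_le measurable_const hYm
  have hF : ∫⁻ ω, F (Y ω) ∂P = ∑' j : ℕ, P {ω | aa j ≤ Y ω} := by
    simp only [F]
    rw [lintegral_tsum (fun j => (Measurable.ite (hmeas j) measurable_const
      measurable_const).aemeasurable)]
    refine tsum_congr fun j => ?_
    have : (fun ω => if aa j ≤ Y ω then (1 : ℝ≥0∞) else 0) =
        Set.indicator {ω | aa j ≤ Y ω} (fun _ => 1) := by
      ext ω
      simp [Set.indicator]
    rw [this, lintegral_indicator_const (hmeas j), one_mul]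
  have hZm : Measurable fun ω => Zm (Y ω) := by
    unfold Zm
    exact (hYm.pow_const _).mul (Real.measurable_log.comp (hYm.const_add 2))
  have hZ0 : ∀ ω, 0 ≤ Zm (Y ω) := fun ω => Zm_nonneg (hY0 ω)
  have hsum : (Summable fun j : ℕ => P.real {ω | aa j ≤ Y ω}) ↔
      ∑' j : ℕ, P {ω | aa j ≤ Y ω} ≠ ∞ := by
    constructor
    · intro h
      have h1 := h.tsum_ofReal_ne_top
      have h2 : (fun j : ℕ => ENNReal.ofReal (P.real {ω | aa j ≤ Y ω})) =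
          fun j : ℕ => P {ω | aa j ≤ Y ω} := funext fun j => ofReal_measureReal (measure_ne_top P _)
      rwa [h2] at h1
    · intro h
      exact ENNReal.summable_toReal h
  rw [hsum, ← hF]
  change Integrable (fun ω => Zm (Y ω)) P ↔ _
  constructor
  · intro h
    have h1 : Integrable (fun ω => 7 * Zm (Y ω) + 1) P := (h.const_mul 7).add (integrable_const 1)
    have h2 : ∫⁻ ω, ENNReal.ofReal (7 * Zm (Y ω) + 1) ∂P ≠ ∞ :=
      (lintegral_ofReal_ne_top_iff_integrable h1.aestronglyMeasurable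
        (Eventually.of_forall fun ω => by
          have := hZ0 ω
          show 0 ≤ 7 * Zm (Y ω) + 1
          linarith)).2 h1
    exact ne_top_of_le_ne_top h2 (lintegral_mono fun ω => F_le (hY0 ω))
  · intro h
    refine (lintegral_ofReal_ne_top_iff_integrable hZm.aestronglyMeasurable
      (Eventually.of_forall hZ0)).1 ?_
    have h1 : ∫⁻ ω, ENNReal.ofReal (Zm (Y ω)) ∂P ≤ ∫⁻ ω, 2 * F (Y ω) ∂P :=
      lintegral_mono fun ω => le_F (hY0 ω)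
    refine ne_top_of_le_ne_top ?_ h1
    rw [lintegral_const_mul' _ _ (by norm_num)]
    exact ENNReal.mul_ne_top (by norm_num) h

end Pool.Agent.H76.GM
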